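import Mathlib

/-
A radical group with a bounded left Engel element outside the Baer radical.
The group consists of the matrices of determinant one over a commutative ring R that are
upper unitriangular modulo an ideal A.
-/

set_option autoImplicit false

namespace Pool.Agent.Lib.MP_b39e30_al

@[ext]
structure Mat (R : Type) [CommRing R] (A : Ideal R) where
  a : R
  b : R
  c : R
  d : R
  det : a * d - b * c = 1
  ha : a - 1 ∈ A
  hc : c ∈ A

variable {R : Type} [CommRing R] {A : Ideal R}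

theorem Mat.hd (g : Mat R A) : g.d - 1 ∈ A := by
  have h : g.d - 1 = g.b * g.c - g.d * (g.a - 1) := by linear_combination g.det
  rw [h]
  exact A.sub_mem (A.mul_mem_left _ g.hc) (A.mul_mem_left _ g.ha)

instance : One (Mat R A) := ⟨⟨1, 0, 0, 1, by ring, by simp, by simp⟩⟩

instance : Mul (Mat R A) :=
  ⟨fun g h => ⟨g.a * h.a + g.b * h.c, g.a * h.b + g.b * h.d, g.c * h.a + g.d * h.c,
    g.c * h.b + g.d * h.d,
    by linear_combination (h.a * h.d - h.b * h.c) * g.det + h.det,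
    by
      have e : g.a * h.a + g.b * h.c - 1 = h.a * (g.a - 1) + (h.a - 1) + g.b * h.c := by ring
      rw [e]
      exact A.add_mem (A.add_mem (A.mul_mem_left _ g.ha) h.ha) (A.mul_mem_left _ h.hc),
    A.add_mem (A.mul_mem_right _ g.hc) (A.mul_mem_left _ h.hc)⟩⟩

instance : Inv (Mat R A) :=
  ⟨fun g => ⟨g.d, -g.b, -g.c, g.a, by linear_combination g.det, g.hd, A.neg_mem g.hc⟩⟩

@[simp] theorem one_a : (1 : Mat R A).a = 1 := rfl
@[simp] theorem one_b : (1 : Mat R A).b = 0 := rfl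
@[simp] theorem one_c : (1 : Mat R A).c = 0 := rfl
@[simp] theorem one_d : (1 : Mat R A).d = 1 := rfl
@[simp] theorem mul_a (g h : Mat R A) : (g * h).a = g.a * h.a + g.b * h.c := rfl
@[simp] theorem mul_b (g h : Mat R A) : (g * h).b = g.a * h.b + g.b * h.d := rfl
@[simp] theorem mul_c (g h : Mat R A) : (g * h).c = g.c * h.a + g.d * h.c := rfl
@[simp] theorem mul_d (g h : Mat R A) : (g * h).d = g.c * h.b + g.d * h.d := rfl
@[simp] theorem inv_a (g : Mat R A) : g⁻¹.a = g.d := rfl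
@[simp] theorem inv_b (g : Mat R A) : g⁻¹.b = -g.b := rfl
@[simp] theorem inv_c (g : Mat R A) : g⁻¹.c = -g.c := rfl
@[simp] theorem inv_d (g : Mat R A) : g⁻¹.d = g.a := rfl

instance : Group (Mat R A) :=
  Group.ofLeftAxioms
    (fun g h k => by ext <;> simp only [mul_a, mul_b, mul_c, mul_d] <;> ring)
    (fun g => by ext <;> simp)
    (fun g => by
      ext <;> simp only [mul_a, mul_b, mul_c, mul_d, inv_a, inv_b, inv_c, inv_d, one_a, one_b,
        one_c, one_d]
      · linear_combination g.det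
      · ring
      · ring
      · linear_combination g.det)

/-- The congruence subgroup of level J. -/
def cong (A J : Ideal R) : Subgroup (Mat R A) where
  carrier := {g | g.a - 1 ∈ J ∧ g.b ∈ J ∧ g.c ∈ J ∧ g.d - 1 ∈ J}
  one_mem' := by simp
  mul_mem' := by
    rintro g h ⟨g1, g2, g3, g4⟩ ⟨h1, h2, h3, h4⟩
    refine ⟨?_, ?_, ?_, ?_⟩
    · have e : (g * h).a - 1 = h.a * (g.a - 1) + (h.a - 1) + g.b * h.c := by
        simp only [mul_a]; ring
      rw [e]
      exact J.add_mem (J.add_mem (J.mul_mem_left _ g1) h1) (J.mul_mem_left _ h3)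
    · exact J.add_mem (J.mul_mem_left _ h2) (J.mul_mem_right _ g2)
    · exact J.add_mem (J.mul_mem_right _ g3) (J.mul_mem_left _ h3)
    · have e : (g * h).d - 1 = h.d * (g.d - 1) + (h.d - 1) + g.c * h.b := by
        simp only [mul_d]; ring
      rw [e]
      exact J.add_mem (J.add_mem (J.mul_mem_left _ g4) h4) (J.mul_mem_left _ h2)
  inv_mem' := by
    rintro g ⟨g1, g2, g3, g4⟩
    exact ⟨g4, J.neg_mem g2, J.neg_mem g3, g1⟩

theorem mem_cong {J : Ideal R} {g : Mat R A} :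
    g ∈ cong A J ↔ g.a - 1 ∈ J ∧ g.b ∈ J ∧ g.c ∈ J ∧ g.d - 1 ∈ J := Iff.rfl

theorem inv_mul_mem_cong {J : Ideal R} (u v : Mat R A) (h1 : u.a - v.a ∈ J) (h2 : u.b - v.b ∈ J)
    (h3 : u.c - v.c ∈ J) (h4 : u.d - v.d ∈ J) : v⁻¹ * u ∈ cong A J := by
  refine ⟨?_, ?_, ?_, ?_⟩
  · have e : (v⁻¹ * u).a - 1 = v.d * (u.a - v.a) - v.b * (u.c - v.c) := by
      simp only [mul_a, inv_a, inv_b]; linear_combination v.det
    rw [e]; exact J.sub_mem (J.mul_mem_left _ h1) (J.mul_mem_left _ h3)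
  · have e : (v⁻¹ * u).b = v.d * (u.b - v.b) - v.b * (u.d - v.d) := by
      simp only [mul_b, inv_a, inv_b]; ring
    rw [e]; exact J.sub_mem (J.mul_mem_left _ h2) (J.mul_mem_left _ h4)
  · have e : (v⁻¹ * u).c = v.a * (u.c - v.c) - v.c * (u.a - v.a) := by
      simp only [mul_c, inv_c, inv_d]; ring
    rw [e]; exact J.sub_mem (J.mul_mem_left _ h3) (J.mul_mem_left _ h1)
  · have e : (v⁻¹ * u).d - 1 = v.a * (u.d - v.d) - v.c * (u.b - v.b) := by
      simp only [mul_d, inv_c, inv_d]; linear_combination v.det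
    rw [e]; exact J.sub_mem (J.mul_mem_left _ h4) (J.mul_mem_left _ h2)

theorem comm_eq (h k : Mat R A) : h⁻¹ * k⁻¹ * h * k = (k * h)⁻¹ * (h * k) := by group

theorem comm_mem_cong_mul {I J : Ideal R} {h k : Mat R A} (hh : h ∈ cong A I)
    (hk : k ∈ cong A J) : h⁻¹ * k⁻¹ * h * k ∈ cong A (I * J) := by
  obtain ⟨h1, h2, h3, h4⟩ := hh
  obtain ⟨k1, k2, k3, k4⟩ := hk
  rw [comm_eq]
  apply inv_mul_mem_cong
  · have e : (h * k).a - (k * h).a = h.b * k.c - h.c * k.b := by simp only [mul_a]; ring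
    rw [e]; exact (I * J).sub_mem (Ideal.mul_mem_mul h2 k3) (Ideal.mul_mem_mul h3 k2)
  · have e : (h * k).b - (k * h).b
        = ((h.a - 1) - (h.d - 1)) * k.b + h.b * ((k.d - 1) - (k.a - 1)) := by
      simp only [mul_b]; ring
    rw [e]
    exact (I * J).add_mem (Ideal.mul_mem_mul (I.sub_mem h1 h4) k2)
      (Ideal.mul_mem_mul h2 (J.sub_mem k4 k1))
  · have e : (h * k).c - (k * h).c
        = ((h.d - 1) - (h.a - 1)) * k.c + h.c * ((k.a - 1) - (k.d - 1)) := by
      simp only [mul_c]; ring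
    rw [e]
    exact (I * J).add_mem (Ideal.mul_mem_mul (I.sub_mem h4 h1) k3)
      (Ideal.mul_mem_mul h3 (J.sub_mem k1 k4))
  · have e : (h * k).d - (k * h).d = h.c * k.b - h.b * k.c := by simp only [mul_d]; ring
    rw [e]; exact (I * J).sub_mem (Ideal.mul_mem_mul h3 k2) (Ideal.mul_mem_mul h2 k3)

theorem comm_mem_cong (h k : Mat R A) : h⁻¹ * k⁻¹ * h * k ∈ cong A A := by
  have h1 := h.ha
  have h3 := h.hc
  have h4 := h.hd
  have k1 := k.ha
  have k3 := k.hc
  have k4 := k.hd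
  rw [comm_eq]
  apply inv_mul_mem_cong
  · have e : (h * k).a - (k * h).a = h.b * k.c - h.c * k.b := by simp only [mul_a]; ring
    rw [e]; exact A.sub_mem (A.mul_mem_left _ k3) (A.mul_mem_right _ h3)
  · have e : (h * k).b - (k * h).b
        = ((h.a - 1) - (h.d - 1)) * k.b + h.b * ((k.d - 1) - (k.a - 1)) := by
      simp only [mul_b]; ring
    rw [e]
    exact A.add_mem (A.mul_mem_right _ (A.sub_mem h1 h4)) (A.mul_mem_left _ (A.sub_mem k4 k1))
  · have e : (h * k).c - (k * h).c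
        = ((h.d - 1) - (h.a - 1)) * k.c + h.c * ((k.a - 1) - (k.d - 1)) := by
      simp only [mul_c]; ring
    rw [e]
    exact A.add_mem (A.mul_mem_left _ k3) (A.mul_mem_right _ h3)
  · have e : (h * k).d - (k * h).d = h.c * k.b - h.b * k.c := by simp only [mul_d]; ring
    rw [e]; exact A.sub_mem (A.mul_mem_right _ h3) (A.mul_mem_left _ k3)

theorem conj_mem_cong (g h : Mat R A) (hh : h ∈ cong A A) : g * h * g⁻¹ ∈ cong A A := by
  have e : g * h * g⁻¹ = h * (h⁻¹ * g⁻¹⁻¹ * h * g⁻¹) := by group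
  rw [e]
  exact (cong A A).mul_mem hh (comm_mem_cong h g⁻¹)

theorem foldl_mem_cong (J : Ideal R) (hs : List (Mat R A)) :
    ∀ (k : ℕ) (h0 : Mat R A), h0 ∈ cong A (J ^ k) → (∀ b ∈ hs, b ∈ cong A J) →
      hs.foldl (fun a b : Mat R A => a⁻¹ * b⁻¹ * a * b) h0 ∈ cong A (J ^ (k + hs.length)) := by
  induction hs with
  | nil => intro k h0 hh _; simpa using hh
  | cons b bs ih =>
    intro k h0 hh hb
    have h1 : h0⁻¹ * b⁻¹ * h0 * b ∈ cong A (J ^ (k + 1)) := by
      rw [pow_succ]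
      exact comm_mem_cong_mul hh (hb b (by simp))
    have h2 := ih (k + 1) _ h1 (fun c hc => hb c (by simp [hc]))
    have e : k + 1 + bs.length = k + (b :: bs).length := by simp only [List.length_cons]; ring
    rw [e] at h2
    simpa only [List.foldl_cons] using h2

theorem eq_one_of_mem_cong_bot {g : Mat R A} (hg : g ∈ cong A ⊥) : g = 1 := by
  obtain ⟨h1, h2, h3, h4⟩ := hg
  rw [Ideal.mem_bot] at h1 h2 h3 h4
  ext
  · simpa using sub_eq_zero.mp h1
  · simpa using h2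
  · simpa using h3
  · simpa using sub_eq_zero.mp h4

/-- The congruence subgroup of level A is locally nilpotent when A is nil. -/
theorem cong_locally_nilpotent (hnil : ∀ a ∈ A, a ^ 3 = 0) (F : Set (Mat R A)) (hF : F.Finite)
    (hFA : F ⊆ (cong A A : Set (Mat R A))) :
    ∃ n : ℕ, ∀ h0 : Mat R A, ∀ hs : List (Mat R A), hs.length = n →
      (∀ b ∈ hs, b ∈ Subgroup.closure F) →
        hs.foldl (fun a b : Mat R A => a⁻¹ * b⁻¹ * a * b) h0 = 1 := by
  let E : Set R := ⋃ g ∈ F, ({g.a - 1, g.b, g.c, g.d - 1} : Set R)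
  have hE : E.Finite := hF.biUnion (fun g _ => Set.toFinite _)
  let J : Ideal R := Ideal.span E
  have hfg : J.FG := Submodule.fg_span hE
  have hle : J ≤ nilradical R := by
    apply Ideal.span_le.mpr
    intro x hx
    simp only [E, Set.mem_iUnion, Set.mem_insert_iff, Set.mem_singleton_iff] at hx
    obtain ⟨g, hg, hx⟩ := hx
    obtain ⟨h1, h2, h3, h4⟩ := hFA hg
    have hxA : x ∈ A := by
      rcases hx with rfl | rfl | rfl | rfl <;> assumption
    exact mem_nilradical.mpr ⟨3, hnil x hxA⟩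
  obtain ⟨n, hn⟩ := (Ideal.FG.isNilpotent_iff_le_nilradical hfg).mpr hle
  refine ⟨n, fun h0 hs hlen hb => ?_⟩
  have hcl : Subgroup.closure F ≤ cong A J := by
    rw [Subgroup.closure_le]
    intro g hg
    refine ⟨?_, ?_, ?_, ?_⟩ <;> apply Ideal.subset_span <;>
      simp only [E, Set.mem_iUnion, Set.mem_insert_iff, Set.mem_singleton_iff] <;>
      exact ⟨g, hg, by simp⟩
  have h := foldl_mem_cong J hs 0 h0 (by simp [mem_cong]) (fun b hb' => hcl (hb b hb'))
  rw [zero_add, hlen, hn] at h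
  exact eq_one_of_mem_cong_bot h

/-- The unipotent element. -/
def xel (A : Ideal R) : Mat R A := ⟨1, 1, 0, 1, by ring, by simp, by simp⟩

theorem xel_engel (hnil : ∀ a ∈ A, a ^ 3 = 0) (g : Mat R A) :
    (fun y : Mat R A => y⁻¹ * (xel A)⁻¹ * y * xel A)^[4] g = 1 := by
  set φ : Mat R A → Mat R A := fun y : Mat R A => y⁻¹ * (xel A)⁻¹ * y * xel A with hφ
  have hc : ∀ y, (φ y).c = y.c ^ 2 := by
    intro y
    simp only [hφ, xel, mul_c, mul_d, inv_a, inv_b, inv_c, inv_d]; ring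
  have h1 : ∀ y, y.c = 0 → (φ y).a = 1 ∧ (φ y).d = 1 := by
    intro y hy
    have hd := y.det
    simp only [hφ, xel, mul_a, mul_b, mul_c, mul_d, inv_a, inv_b, inv_c, inv_d, hy] at hd ⊢
    constructor <;> linear_combination hd
  have h2 : ∀ y, y.c = 0 → y.a = 1 → y.d = 1 → φ y = 1 := by
    intro y hy ha hd
    ext <;>
      simp only [hφ, xel, mul_a, mul_b, mul_c, mul_d, inv_a, inv_b, inv_c, inv_d, hy, ha, hd,
        one_a, one_b, one_c, one_d] <;> ring
  have c2 : (φ (φ g)).c = 0 := by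
    rw [hc, hc]
    have := hnil _ g.hc
    linear_combination g.c * this
  have c3 : (φ (φ (φ g))).c = 0 := by rw [hc, c2]; ring
  obtain ⟨a3, d3⟩ := h1 _ c2
  exact h2 _ c3 a3 d3

/-- g is the lower unitriangular matrix with entry s. -/
def IsLow (g : Mat R A) (s : R) : Prop := g.a = 1 ∧ g.b = 0 ∧ g.c = s ∧ g.d = 1

/-- u is 1 + s w with w the trace zero matrix with entries p, q, r. -/
def IsNear (u : Mat R A) (s p q r : R) : Prop :=
  u.a = 1 + s * p ∧ u.b = s * q ∧ u.c = s * r ∧ u.d = 1 - s * p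

theorem near_first {g y : Mat R A} {s : R} (hg : IsLow g s) (hs : s ^ 2 = 0) :
    IsNear (g⁻¹ * y⁻¹ * g * y) s (-(y.a * y.b)) (-(y.b ^ 2)) (y.a ^ 2 - 1) := by
  obtain ⟨h1, h2, h3, h4⟩ := hg
  have hd := y.det
  refine ⟨?_, ?_, ?_, ?_⟩ <;>
    simp only [mul_a, mul_b, mul_c, mul_d, inv_a, inv_b, inv_c, inv_d, h1, h2, h3, h4]
  · linear_combination hd
  · ring
  · linear_combination (-s) * hd + (y.a * y.b) * hs
  · linear_combination hd + (y.b ^ 2) * hs

theorem near_step {u g : Mat R A} {s p q r s' : R} (hu : IsNear u s p q r) (hg : IsLow g s')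
    (hs : s ^ 2 = 0) (hs' : s' ^ 2 = 0) :
    IsNear (u⁻¹ * g⁻¹ * u * g) (s * s') q 0 (-(2 * p)) := by
  obtain ⟨h1, h2, h3, h4⟩ := hg
  obtain ⟨u1, u2, u3, u4⟩ := hu
  refine ⟨?_, ?_, ?_, ?_⟩ <;>
    simp only [mul_a, mul_b, mul_c, mul_d, inv_a, inv_b, inv_c, inv_d, h1, h2, h3, h4,
      u1, u2, u3, u4] <;> grind

end Pool.Agent.Lib.MP_b39e30_al
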