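import Pool.Agent.Lib.MP_b39e30_al.Basic

set_option autoImplicit false

namespace Pool.Agent.Lib.MP_b39e30_al

variable {R : Type} [CommRing R] {A : Ideal R}

/-- H contains, away from any finite set of indices, a lower unitriangular matrix whose entry is
a unit times a nonempty product of distinct generators. -/
def Rich (t : ℕ → R) (H : Subgroup (Mat R A)) : Prop :=
  ∀ T : Finset ℕ, ∃ S : Finset ℕ, Disjoint S T ∧ S.Nonempty ∧ ∃ u : R, IsUnit u ∧
    ∃ g ∈ H, IsLow g (u * ∏ i ∈ S, t i)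

theorem sq_prod_eq_zero {t : ℕ → R} (ht : ∀ i, t i ^ 2 = 0) {S : Finset ℕ} (hS : S.Nonempty)
    (u : R) : (u * ∏ i ∈ S, t i) ^ 2 = 0 := by
  obtain ⟨j, hj⟩ := hS
  rw [mul_pow, ← Finset.prod_pow, Finset.prod_eq_zero hj (ht j), mul_zero]

theorem rich_step {t : ℕ → R} (ht : ∀ i, t i ^ 2 = 0) (h2 : IsUnit (2 : R)) {y : Mat R A}
    (hy : IsUnit y.b) {H H' : Subgroup (Mat R A)}
    (h1 : ∀ g ∈ H', g⁻¹ * y⁻¹ * g * y ∈ H) (hn : ∀ g ∈ H', ∀ u ∈ H, g⁻¹ * u * g ∈ H)
    (hr : Rich t H') : Rich t H := by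
  classical
  intro T
  obtain ⟨S1, d1, n1, u1, hu1, g1, hg1, l1⟩ := hr T
  obtain ⟨S2, d2, n2, u2, hu2, g2, hg2, l2⟩ := hr (T ∪ S1)
  obtain ⟨S3, d3, n3, u3, hu3, g3, hg3, l3⟩ := hr (T ∪ S1 ∪ S2)
  rw [Finset.disjoint_union_right] at d2
  rw [Finset.disjoint_union_right, Finset.disjoint_union_right] at d3
  have s1 := sq_prod_eq_zero ht n1 u1
  have s2 := sq_prod_eq_zero ht n2 u2
  have s3 := sq_prod_eq_zero ht n3 u3
  have e1 := near_first (y := y) l1 s1
  have e2 := near_step e1 l2 s1 s2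
  have e3 := near_step e2 l3 (by rw [mul_pow, s1, zero_mul]) s3
  have hcomm : ∀ g ∈ H', ∀ u ∈ H, u⁻¹ * g⁻¹ * u * g ∈ H := by
    intro g hg u hu
    have e : u⁻¹ * g⁻¹ * u * g = u⁻¹ * (g⁻¹ * u * g) := by group
    rw [e]
    exact H.mul_mem (H.inv_mem hu) (hn g hg u hu)
  have m1 := h1 g1 hg1
  have m2 := hcomm g2 hg2 _ m1
  have m3 := hcomm g3 hg3 _ m2
  refine ⟨S1 ∪ S2 ∪ S3, ?_, ?_, u1 * u2 * u3 * (2 * y.b ^ 2), ?_, _, m3, ?_⟩
  · rw [Finset.disjoint_union_left, Finset.disjoint_union_left]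
    exact ⟨⟨d1, d2.1⟩, d3.1.1⟩
  · exact (n1.mono Finset.subset_union_left).mono Finset.subset_union_left
  · exact ((hu1.mul hu2).mul hu3).mul (h2.mul (hy.pow 2))
  · obtain ⟨f1, f2, f3, f4⟩ := e3
    have dd : Disjoint (S1 ∪ S2) S3 := by
      rw [Finset.disjoint_union_left]
      exact ⟨d3.1.2.symm, d3.2.symm⟩
    refine ⟨by rw [f1]; ring, by rw [f2]; ring, ?_, by rw [f4]; ring⟩
    rw [f3, Finset.prod_union dd, Finset.prod_union d2.2.symm]
    ring

theorem rich_top {t : ℕ → R} (htA : ∀ i, t i ∈ A) : Rich t (⊤ : Subgroup (Mat R A)) := by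
  intro T
  obtain ⟨j, hj⟩ := Infinite.exists_notMem_finset T
  refine ⟨{j}, by simpa using hj, by simp, 1, isUnit_one,
    ⟨1, 0, t j, 1, by ring, by simp, htA j⟩, Subgroup.mem_top _, ?_⟩
  simp [IsLow]

theorem not_rich_bot {t : ℕ → R} (hne : ∀ S : Finset ℕ, ∏ i ∈ S, t i ≠ 0) :
    ¬ Rich t (⊥ : Subgroup (Mat R A)) := by
  intro h
  obtain ⟨S, -, -, u, hu, g, hg, l⟩ := h ∅
  rw [Subgroup.mem_bot] at hg
  subst hg
  have h0 : u * ∏ i ∈ S, t i = 0 := l.2.2.1.symm
  exact hne S (hu.mul_right_eq_zero.mp h0)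

/-- An element generating a subnormal cyclic subgroup lies in the congruence subgroup. -/
theorem mem_cong_of_subnormal {t : ℕ → R} (ht : ∀ i, t i ^ 2 = 0) (htA : ∀ i, t i ∈ A)
    (hne : ∀ S : Finset ℕ, ∏ i ∈ S, t i ≠ 0) (h2 : IsUnit (2 : R))
    (hunit : ∀ b : R, b ∉ A → IsUnit b) (y : Mat R A) (n : ℕ) (K : ℕ → Subgroup (Mat R A))
    (h0 : K 0 = Subgroup.zpowers y) (hn : K n = ⊤)
    (hK : ∀ i : ℕ, i < n → (K i ≤ K (i + 1) ∧
      ∀ a : Mat R A, a ∈ K (i + 1) → ∀ b : Mat R A, b ∈ K i → a * b * a⁻¹ ∈ K i)) :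
    y ∈ cong A A := by
  by_contra hy
  have hb : y.b ∉ A := fun h => hy ⟨y.ha, h, y.hc, y.hd⟩
  have hu := hunit _ hb
  have hyK : ∀ i, i ≤ n → y ∈ K i := by
    intro i
    induction i with
    | zero => intro _; rw [h0]; exact Subgroup.mem_zpowers y
    | succ i ih => intro hi; exact (hK i (by omega)).1 (ih (by omega))
  have hrich : ∀ j, j ≤ n → Rich t (K (n - j)) := by
    intro j
    induction j with
    | zero => intro _; rw [Nat.sub_zero, hn]; exact rich_top htA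
    | succ j ih =>
      intro hj
      have hi : n - (j + 1) < n := by omega
      have e : n - j = n - (j + 1) + 1 := by omega
      have hr := ih (by omega)
      rw [e] at hr
      have hnorm : ∀ g ∈ K (n - (j + 1) + 1), ∀ u ∈ K (n - (j + 1)),
          g⁻¹ * u * g ∈ K (n - (j + 1)) := by
        intro g hg u hu'
        simpa using (hK _ hi).2 g⁻¹ ((K _).inv_mem hg) u hu'
      refine rich_step ht h2 hu ?_ hnorm hr
      intro g hg
      have hy' := hyK _ hi.le
      exact (K _).mul_mem (hnorm g hg _ ((K _).inv_mem hy')) hy'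
  have hr0 := hrich n le_rfl
  rw [Nat.sub_self, h0] at hr0
  refine not_rich_bot (A := A) hne (rich_step ht h2 hu ?_ ?_ hr0)
  · intro g hg
    obtain ⟨k, rfl⟩ := Subgroup.mem_zpowers_iff.mp hg
    rw [Subgroup.mem_bot]
    group
  · intro g _ u hu'
    rw [Subgroup.mem_bot] at hu' ⊢
    rw [hu']; group

/-! The concrete ring. -/

open MvPolynomial

/-- The ideal generated by the squares of the variables. -/
noncomputable def sqIdeal : Ideal (MvPolynomial ℕ (ZMod 3)) :=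
  Ideal.span (Set.range fun i : ℕ => (X i : MvPolynomial ℕ (ZMod 3)) ^ 2)

/-- The coefficient ring. -/
abbrev Rq : Type := MvPolynomial ℕ (ZMod 3) ⧸ sqIdeal

/-- The augmentation. -/
noncomputable def aug : Rq →+* ZMod 3 :=
  Ideal.Quotient.lift sqIdeal (constantCoeff : MvPolynomial ℕ (ZMod 3) →+* ZMod 3) (by
    intro a ha
    have h : sqIdeal ≤ RingHom.ker (constantCoeff : MvPolynomial ℕ (ZMod 3) →+* ZMod 3) := by
      apply Ideal.span_le.mpr
      rintro _ ⟨i, rfl⟩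
      simp [RingHom.mem_ker]
    exact h ha)

theorem aug_mk (p : MvPolynomial ℕ (ZMod 3)) :
    aug (Ideal.Quotient.mk sqIdeal p) = constantCoeff p := rfl

/-- The images of the variables. -/
noncomputable def tq (i : ℕ) : Rq := Ideal.Quotient.mk sqIdeal (X i)

theorem tq_sq (i : ℕ) : tq i ^ 2 = 0 := by
  rw [tq, ← map_pow, Ideal.Quotient.eq_zero_iff_mem]
  exact Ideal.subset_span ⟨i, rfl⟩

theorem tq_mem (i : ℕ) : tq i ∈ RingHom.ker aug := by
  rw [RingHom.mem_ker, tq, aug_mk, constantCoeff_X]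

theorem cube_eq (r : Rq) : r ^ 3 = Ideal.Quotient.mk sqIdeal (C (aug r)) := by
  obtain ⟨p, rfl⟩ := Ideal.Quotient.mk_surjective r
  have : Fact (Nat.Prime 3) := ⟨Nat.prime_three⟩
  have h : (Ideal.Quotient.mk sqIdeal).comp (frobenius (MvPolynomial ℕ (ZMod 3)) 3)
      = (Ideal.Quotient.mk sqIdeal).comp
        ((C : ZMod 3 →+* MvPolynomial ℕ (ZMod 3)).comp constantCoeff) := by
    apply MvPolynomial.ringHom_ext
    · intro c
      have hc : c ^ 3 = c := ZMod.pow_card c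
      simp only [RingHom.comp_apply, frobenius_def, constantCoeff_C]
      rw [← map_pow, hc]
    · intro i
      simp only [RingHom.comp_apply, frobenius_def, constantCoeff_X, map_zero, map_pow]
      have := tq_sq i
      rw [tq] at this
      rw [pow_succ, this, zero_mul]
  have h' := RingHom.congr_fun h p
  simp only [RingHom.comp_apply, frobenius_def, map_pow] at h'
  rw [h', aug_mk]

theorem nil_of_mem (a : Rq) (ha : a ∈ RingHom.ker aug) : a ^ 3 = 0 := by
  rw [cube_eq, RingHom.mem_ker.mp ha]; simp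

theorem unit_of_not_mem (b : Rq) (hb : b ∉ RingHom.ker aug) : IsUnit b := by
  have : Fact (Nat.Prime 3) := ⟨Nat.prime_three⟩
  have h1 : aug b ≠ 0 := fun h => hb (RingHom.mem_ker.mpr h)
  have h2 : IsUnit (b ^ 3) := by
    rw [cube_eq]
    exact ((IsUnit.mk0 _ h1).map (C : ZMod 3 →+* MvPolynomial ℕ (ZMod 3))).map _
  exact (isUnit_pow_iff (by norm_num)).mp h2

theorem one_not_mem : (1 : Rq) ∉ RingHom.ker aug := by
  rw [RingHom.mem_ker, map_one]; decide

theorem two_unit : IsUnit (2 : Rq) := by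
  apply unit_of_not_mem
  rw [RingHom.mem_ker, map_ofNat]; decide

theorem prod_tq_ne_zero (S : Finset ℕ) : ∏ i ∈ S, tq i ≠ 0 := by
  classical
  intro h
  simp only [tq] at h
  rw [← map_prod, Ideal.Quotient.eq_zero_iff_mem] at h
  have e1 : (Set.range fun i : ℕ => (X i : MvPolynomial ℕ (ZMod 3)) ^ 2)
      = (fun s : ℕ →₀ ℕ => (monomial s (1 : ZMod 3) : MvPolynomial ℕ (ZMod 3))) ''
        (Set.range fun i : ℕ => Finsupp.single i 2) := by
    rw [← Set.range_comp]
    congr 1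
    funext i
    simp [X_pow_eq_monomial]
  have e2 : ∏ i ∈ S, (X i : MvPolynomial ℕ (ZMod 3))
      = monomial (∑ i ∈ S, Finsupp.single i 1) 1 := by
    rw [monomial_sum_one]
    rfl
  rw [sqIdeal, e1, mem_ideal_span_monomial_image, e2] at h
  have hmem : (∑ i ∈ S, Finsupp.single i 1) ∈
      (monomial (∑ i ∈ S, Finsupp.single i 1) (1 : ZMod 3) : MvPolynomial ℕ (ZMod 3)).support := by
    rw [mem_support_iff, coeff_monomial, if_pos rfl]; decide
  obtain ⟨_, ⟨i, rfl⟩, hle⟩ := h _ hmem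
  have := hle i
  simp only [Finsupp.single_eq_same, Finsupp.finsetSum_apply, Finsupp.single_apply,
    Finset.sum_ite_eq'] at this
  split_ifs at this <;> omega

end Pool.Agent.Lib.MP_b39e30_al
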