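import Pool.Statements.S02766
import Pool.Agent.Lib.MP_b39e30_al.Main

set_option autoImplicit false
open Pool Pool.MP_b39e30_al

namespace Pool.Agent.Lib.MP_b39e30_al.FrozenNegationWithdrawn

/-- The negation of the preceding statement: In every radical group (ascending series with locally nilpotent factors), an element is a bounded left Engel element exactly when it lies in the subgroup generated by all elements generating subnormal cyclic subgroups, i.e. the Baer radical. -/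
theorem result :
    ¬ (∀ (G : Type) [Group G],
      (∃ S : Ordinal.{0} → Subgroup G,
        Monotone S ∧
        (∀ α : Ordinal.{0}, ∀ g : G, g ∈ S α →
          g = 1 ∨ ∃ β : Ordinal.{0}, β < α ∧ g ∈ S (Order.succ β)) ∧
        (∀ α : Ordinal.{0}, ∀ a : G, a ∈ S (Order.succ α) →
          ∀ b : G, b ∈ S α → a * b * a⁻¹ ∈ S α) ∧
        (∀ α : Ordinal.{0}, ∀ F : Set G, F.Finite →
          F ⊆ (S (Order.succ α) : Set G) →
          ∃ n : ℕ, ∀ h0 : G, h0 ∈ Subgroup.closure F →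
            ∀ hs : List G, hs.length = n →
              (∀ b : G, b ∈ hs → b ∈ Subgroup.closure F) →
                hs.foldl (fun a b : G => a⁻¹ * b⁻¹ * a * b) h0 ∈ S α) ∧
        (∃ β : Ordinal.{0}, S β = ⊤)) →
      ∀ x : G,
        (∃ n : ℕ, ∀ g : G, (fun y : G => y⁻¹ * x⁻¹ * y * x)^[n] g = 1) ↔
          x ∈ Subgroup.closure
            {y : G | ∃ n : ℕ, ∃ K : ℕ → Subgroup G,
              K 0 = Subgroup.zpowers y ∧ K n = ⊤ ∧
              ∀ i : ℕ, i < n → (K i ≤ K (i + 1) ∧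
                ∀ a : G, a ∈ K (i + 1) → ∀ b : G, b ∈ K i → a * b * a⁻¹ ∈ K i)}) := by
  intro hall
  classical
  let A : Ideal Lib.MP_b39e30_al.Rq := RingHom.ker Lib.MP_b39e30_al.aug
  let G : Type := Lib.MP_b39e30_al.Mat Lib.MP_b39e30_al.Rq A
  let N : Subgroup G := Lib.MP_b39e30_al.cong A A
  let S : Ordinal.{0} → Subgroup G := fun α => if α = 0 then ⊥ else if α = 1 then N else ⊤
  have S0 : S 0 = ⊥ := by simp [S]
  have S1 : S 1 = N := by simp [S]
  have S2 : ∀ α : Ordinal.{0}, 1 < α → S α = ⊤ := by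
    intro α hα
    have h1 : α ≠ 1 := hα.ne'
    have h0 : α ≠ 0 := (lt_trans zero_lt_one hα).ne'
    simp [S, h0, h1]
  have tri : ∀ α : Ordinal.{0}, α = 0 ∨ α = 1 ∨ 1 < α := by
    intro α
    rcases eq_or_ne α 0 with h | h
    · exact Or.inl h
    · rcases (Order.one_le_iff_ne_zero.mpr h).eq_or_lt with h' | h'
      · exact Or.inr (Or.inl h'.symm)
      · exact Or.inr (Or.inr h')
  have succ0 : Order.succ (0 : Ordinal.{0}) = 1 := by simp
  have lt1 : (1 : Ordinal.{0}) < Order.succ 1 := Order.lt_succ 1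
  have hx := (hall G ⟨S, ?_, ?_, ?_, ?_, ⟨Order.succ 1, S2 _ lt1⟩⟩ (Lib.MP_b39e30_al.xel A)).mp
    ⟨4, Lib.MP_b39e30_al.xel_engel Lib.MP_b39e30_al.nil_of_mem⟩
  · have hle : Subgroup.closure
        {y : G | ∃ n : ℕ, ∃ K : ℕ → Subgroup G,
          K 0 = Subgroup.zpowers y ∧ K n = ⊤ ∧
          ∀ i : ℕ, i < n → (K i ≤ K (i + 1) ∧
            ∀ a : G, a ∈ K (i + 1) → ∀ b : G, b ∈ K i → a * b * a⁻¹ ∈ K i)} ≤ N := by
      rw [Subgroup.closure_le]
      rintro y ⟨n, K, h0, hn, hK⟩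
      exact Lib.MP_b39e30_al.mem_cong_of_subnormal Lib.MP_b39e30_al.tq_sq
        Lib.MP_b39e30_al.tq_mem Lib.MP_b39e30_al.prod_tq_ne_zero Lib.MP_b39e30_al.two_unit
        Lib.MP_b39e30_al.unit_of_not_mem y n K h0 hn hK
    exact Lib.MP_b39e30_al.one_not_mem (hle hx).2.1
  · intro α β hαβ
    rcases tri β with rfl | rfl | hβ
    · rw [le_zero_iff.mp hαβ]
    · rcases tri α with rfl | rfl | hα
      · rw [S0]; exact bot_le
      · exact le_rfl
      · exact absurd hαβ (not_le.mpr hα)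
    · rw [S2 β hβ]; exact le_top
  · intro α g hg
    rcases tri α with rfl | rfl | hα
    · rw [S0] at hg; exact Or.inl (Subgroup.mem_bot.mp hg)
    · exact Or.inr ⟨0, zero_lt_one, by rw [succ0]; exact hg⟩
    · exact Or.inr ⟨1, hα, by rw [S2 _ lt1]; exact Subgroup.mem_top g⟩
  · intro α a _ b hb
    rcases tri α with rfl | rfl | hα
    · rw [S0] at hb ⊢
      rw [Subgroup.mem_bot] at hb ⊢
      rw [hb]; group
    · rw [S1] at hb ⊢
      exact Lib.MP_b39e30_al.conj_mem_cong a b hb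
    · rw [S2 α hα]; exact Subgroup.mem_top _
  · intro α F hF hFS
    rcases tri α with rfl | rfl | hα
    · rw [succ0, S1] at hFS
      obtain ⟨n, hn⟩ := Lib.MP_b39e30_al.cong_locally_nilpotent Lib.MP_b39e30_al.nil_of_mem F hF hFS
      refine ⟨n, fun h0 _ hs hlen hb => ?_⟩
      rw [S0, Subgroup.mem_bot]
      exact hn h0 hs hlen hb
    · refine ⟨1, fun h0 _ hs hlen _ => ?_⟩
      obtain ⟨b, rfl⟩ := List.length_eq_one_iff.mp hlen
      rw [S1]
      exact Lib.MP_b39e30_al.comm_mem_cong h0 b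
    · refine ⟨0, fun h0 _ hs _ _ => ?_⟩
      rw [S2 α hα]; exact Subgroup.mem_top _

end Pool.Agent.Lib.MP_b39e30_al.FrozenNegationWithdrawn
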