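import Pool.Agent.Lib.MP_b39e30_al.Main

/-
The group `Mat R A` is locally nilpotent when `A` is a nil ideal.
-/

set_option autoImplicit false

namespace Pool.Agent.Lib.MP_b39e30_al

open scoped commutatorElement

variable {R : Type} [CommRing R] {A : Ideal R}

/-- A finer congruence filtration. -/
def lev (A P Q S : Ideal R) : Subgroup (Mat R A) where
  carrier := {g | g.a - 1 ∈ P ∧ g.b ∈ Q ∧ g.c ∈ S ∧ g.c ∈ P ∧ g.d - 1 ∈ P}
  one_mem' := by simp
  mul_mem' := by
    rintro g h ⟨g1, g2, g3, g5, g4⟩ ⟨h1, h2, h3, h5, h4⟩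
    refine ⟨?_, ?_, ?_, ?_, ?_⟩
    · have e : (g * h).a - 1 = h.a * (g.a - 1) + (h.a - 1) + g.b * h.c := by
        simp only [mul_a]; ring
      rw [e]
      exact P.add_mem (P.add_mem (P.mul_mem_left _ g1) h1) (P.mul_mem_left _ h5)
    · exact Q.add_mem (Q.mul_mem_left _ h2) (Q.mul_mem_right _ g2)
    · exact S.add_mem (S.mul_mem_right _ g3) (S.mul_mem_left _ h3)
    · exact P.add_mem (P.mul_mem_right _ g5) (P.mul_mem_left _ h5)
    · have e : (g * h).d - 1 = h.d * (g.d - 1) + (h.d - 1) + g.c * h.b := by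
        simp only [mul_d]; ring
      rw [e]
      exact P.add_mem (P.add_mem (P.mul_mem_left _ g4) h4) (P.mul_mem_right _ g5)
  inv_mem' := by
    rintro g ⟨g1, g2, g3, g5, g4⟩
    exact ⟨g4, Q.neg_mem g2, S.neg_mem g3, P.neg_mem g5, g1⟩

theorem comm_mem_lev {J P Q S : Ideal R} (hSP : S ≤ P) (hPQ : P ≤ Q) (hQS : Q * J ≤ S)
    {h k : Mat R A} (hh : h ∈ lev A P Q S) (hh' : h ∈ lev A J ⊤ J) (hk : k ∈ lev A J ⊤ J) :
    h⁻¹ * k⁻¹ * h * k ∈ lev A S P (Q * J) := by
  have hvc : (k * h).c ∈ J := ((lev A J ⊤ J).mul_mem hk hh').2.2.1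
  obtain ⟨h1, h2, h3, -, h4⟩ := hh
  obtain ⟨k1, -, k3, -, k4⟩ := hk
  rw [comm_eq]
  set u := h * k with hu
  set v := k * h with hv
  have da : u.a - v.a ∈ S := by
    have e : u.a - v.a = h.b * k.c - h.c * k.b := by simp only [hu, hv, mul_a]; ring
    rw [e]; exact S.sub_mem (hQS (Ideal.mul_mem_mul h2 k3)) (S.mul_mem_right _ h3)
  have db : u.b - v.b ∈ P := by
    have e : u.b - v.b = ((h.a - 1) - (h.d - 1)) * k.b + h.b * ((k.d - 1) - (k.a - 1)) := by
      simp only [hu, hv, mul_b]; ring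
    rw [e]
    exact P.add_mem (P.mul_mem_right _ (P.sub_mem h1 h4))
      (hSP (hQS (Ideal.mul_mem_mul h2 (J.sub_mem k4 k1))))
  have dc : u.c - v.c ∈ Q * J := by
    have e : u.c - v.c = ((h.d - 1) - (h.a - 1)) * k.c + h.c * ((k.a - 1) - (k.d - 1)) := by
      simp only [hu, hv, mul_c]; ring
    rw [e]
    exact (Q * J).add_mem (Ideal.mul_mem_mul (hPQ (P.sub_mem h4 h1)) k3)
      (Ideal.mul_mem_mul (hPQ (hSP h3)) (J.sub_mem k1 k4))
  have dd : u.d - v.d ∈ S := by
    have e : u.d - v.d = h.c * k.b - h.b * k.c := by simp only [hu, hv, mul_d]; ring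
    rw [e]; exact S.sub_mem (S.mul_mem_right _ h3) (hQS (Ideal.mul_mem_mul h2 k3))
  have hc : (v⁻¹ * u).c ∈ Q * J := by
    have e : (v⁻¹ * u).c = v.a * (u.c - v.c) - (u.a - v.a) * v.c := by
      simp only [mul_c, inv_c, inv_d]; ring
    rw [e]
    exact (Q * J).sub_mem ((Q * J).mul_mem_left _ dc) (Ideal.mul_mem_mul (hPQ (hSP da)) hvc)
  refine ⟨?_, ?_, hc, hQS hc, ?_⟩
  · have e : (v⁻¹ * u).a - 1 = v.d * (u.a - v.a) - v.b * (u.c - v.c) := by
      simp only [mul_a, inv_a, inv_b]; linear_combination v.det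
    rw [e]; exact S.sub_mem (S.mul_mem_left _ da) (S.mul_mem_left _ (hQS dc))
  · have e : (v⁻¹ * u).b = v.d * (u.b - v.b) - v.b * (u.d - v.d) := by
      simp only [mul_b, inv_a, inv_b]; ring
    rw [e]; exact P.sub_mem (P.mul_mem_left _ db) (P.mul_mem_left _ (hSP dd))
  · have e : (v⁻¹ * u).d - 1 = v.a * (u.d - v.d) - (u.b - v.b) * v.c := by
      simp only [mul_d, inv_c, inv_d]; linear_combination v.det
    rw [e]; exact S.sub_mem (S.mul_mem_left _ dd) (hQS (Ideal.mul_mem_mul (hPQ db) hvc))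

/-- The triples of ideals along the filtration. -/
def trip (J : Ideal R) : ℕ → Ideal R × Ideal R × Ideal R
  | 0 => (⊤, ⊤, ⊤)
  | m + 1 => ((trip J m).2.2, (trip J m).1, (trip J m).2.1 * J)

theorem trip_inv (J : Ideal R) (m : ℕ) : (trip J m).2.2 ≤ (trip J m).1 ∧
    (trip J m).1 ≤ (trip J m).2.1 ∧ (trip J m).2.1 * J ≤ (trip J m).2.2 := by
  induction m with
  | zero => simp [trip]
  | succ m ih => exact ⟨ih.2.2, ih.1, Ideal.mul_mono_left ih.2.1⟩

theorem trip_three (J : Ideal R) (n : ℕ) : trip J (3 * n) = (J ^ n, J ^ n, J ^ n) := by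
  induction n with
  | zero => simp [trip]
  | succ n ih =>
    have e : 3 * (n + 1) = 3 * n + 1 + 1 + 1 := by ring
    rw [e]
    simp only [trip, ih, pow_succ]

/-- Every finitely generated subgroup is nilpotent when `A` is nil. -/
theorem locally_nilpotent (hnil : ∀ a ∈ A, a ^ 3 = 0) (F : Set (Mat R A)) (hF : F.Finite) :
    Group.IsNilpotent (Subgroup.closure F) := by
  let E : Set R := ⋃ g ∈ F, ({g.a - 1, g.c, g.d - 1} : Set R)
  have hE : E.Finite := hF.biUnion (fun g _ => Set.toFinite _)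
  let J : Ideal R := Ideal.span E
  have hfg : J.FG := Submodule.fg_span hE
  have hle : J ≤ nilradical R := by
    apply Ideal.span_le.mpr
    intro x hx
    simp only [E, Set.mem_iUnion, Set.mem_insert_iff, Set.mem_singleton_iff] at hx
    obtain ⟨g, hg, hx⟩ := hx
    have hxA : x ∈ A := by
      rcases hx with rfl | rfl | rfl
      · exact g.ha
      · exact g.hc
      · exact g.hd
    exact mem_nilradical.mpr ⟨3, hnil x hxA⟩
  obtain ⟨n, hn⟩ := (Ideal.FG.isNilpotent_iff_le_nilradical hfg).mpr hle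
  have hcl : Subgroup.closure F ≤ lev A J ⊤ J := by
    rw [Subgroup.closure_le]
    intro g hg
    refine ⟨?_, Submodule.mem_top, ?_, ?_, ?_⟩ <;> apply Ideal.subset_span <;>
      simp only [E, Set.mem_iUnion, Set.mem_insert_iff, Set.mem_singleton_iff] <;>
      exact ⟨g, hg, by simp⟩
  rw [Subgroup.nilpotent_iff_finite_descending_central_series]
  refine ⟨3 * n, fun m => (lev A (trip J m).1 (trip J m).2.1 (trip J m).2.2).subgroupOf _,
    ⟨?_, ?_⟩, ?_⟩
  · rw [eq_top_iff]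
    intro x _
    rw [Subgroup.mem_subgroupOf]
    exact ⟨Submodule.mem_top, Submodule.mem_top, Submodule.mem_top, Submodule.mem_top,
      Submodule.mem_top⟩
  · intro x m hx g
    rw [Subgroup.mem_subgroupOf] at hx ⊢
    have h1 := comm_mem_lev (trip_inv J m).1 (trip_inv J m).2.1 (trip_inv J m).2.2
      (Subgroup.inv_mem _ hx) (Subgroup.inv_mem _ (hcl x.2)) (Subgroup.inv_mem _ (hcl g.2))
    rw [inv_inv, inv_inv] at h1
    exact h1
  · rw [eq_bot_iff]
    intro x hx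
    rw [Subgroup.mem_subgroupOf, trip_three, hn] at hx
    rw [Subgroup.mem_bot]
    exact Subtype.ext (eq_one_of_mem_cong_bot ⟨hx.1, hx.2.1, hx.2.2.1, hx.2.2.2.2⟩)

end Pool.Agent.Lib.MP_b39e30_al
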