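import Pool.Agent.Lib.MP_b39e30_al.LocNil

set_option autoImplicit false

namespace Pool.Agent.Lib.MP_b39e30_al.LocallyNilpotentWithdrawn

open Pool.Agent.Lib.MP_b39e30_al

/-- A locally nilpotent group with a left 4-Engel element outside the Baer radical. -/
theorem result : ∃ (G : Type) (_ : Group G),
    (∀ F : Finset G, Group.IsNilpotent (Subgroup.closure (F : Set G))) ∧
    ∃ g : G, (∀ x : G, (fun y : G => y⁻¹ * g⁻¹ * y * g)^[4] x = 1) ∧
      ¬ (Subgroup.zpowers g).IsSubnormal ∧
      g ∉ Subgroup.closure {y : G | (Subgroup.zpowers y).IsSubnormal} := by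
  have hle : Subgroup.closure {y : Mat Rq (RingHom.ker aug) | (Subgroup.zpowers y).IsSubnormal} ≤
      cong (RingHom.ker aug) (RingHom.ker aug) := by
    rw [Subgroup.closure_le]
    intro y hy
    obtain ⟨n, K, hmono, hnorm, h0, hn⟩ := Subgroup.IsSubnormal.isSubnormal_iff.1 hy
    refine mem_cong_of_subnormal tq_sq tq_mem prod_tq_ne_zero two_unit unit_of_not_mem y n K h0 hn
      fun i _ => ⟨hmono (Nat.le_succ i), fun a ha b hb => ?_⟩
    exact (Subgroup.normal_subgroupOf_iff (hmono (Nat.le_succ i))).1 (hnorm i) b a hb ha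
  have hx : xel (RingHom.ker aug) ∉ Subgroup.closure
      {y : Mat Rq (RingHom.ker aug) | (Subgroup.zpowers y).IsSubnormal} :=
    fun h => one_not_mem (hle h).2.1
  exact ⟨Mat Rq (RingHom.ker aug), inferInstance,
    fun F => locally_nilpotent nil_of_mem _ F.finite_toSet, xel _, xel_engel nil_of_mem,
    fun h => hx (Subgroup.subset_closure h), hx⟩

end Pool.Agent.Lib.MP_b39e30_al.LocallyNilpotentWithdrawn
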